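import Pool.Agent.L7h3.QX.Stm
import Pool.Agent.L7h76.QD.UN

/-!
# Project QX (helper3), part UNX: the values at the odd torsion points are congruent to one
-/

set_option autoImplicit false

open Filter Complex
open scoped Topology PeriodPair
open H667R3 hiding sq
open Pool.Agent.TH936.CM Pool.Agent.W192.HK

namespace Pool.Agent.L7h89.QX

open Pool.Agent.Y699
open Pool.Agent.L7h3.QX
open Pool.Agent.L7h76.QD (cg_v cg_ne cg_inv cg_sqrt cg_I cg_wp cg_wp1 cg_s)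
open H385 (ZI RQ im1 nrm)
open Pool.Agent.H304R3.HK (tc)

variable {L : PeriodPair} {Ω : ℂ}

lemma OT2 (h : GLat L Ω) {z : ℂ} (hz : OT L z) : OT L (2 * z) := by
  obtain ⟨D, hD, hDz⟩ := hz.ex
  refine ⟨hz.two h, D, hD, ?_⟩
  have h1 := add_mem hDz hDz
  have e : tc D * z + tc D * z = tc D * (2 * z) := by ring
  rwa [e] at h1

/-- the squares of `s0`, `s1`, `s2` -/
lemma s_sq (h : GLat L Ω) {z : ℂ} (hz : OT L z) : s0 L z ^ 2 = ℘[L] (2 * z) ∧
    (∀ e : ℂ, e ^ 2 = 1 → s1 L e z ^ 2 = ℘[L] (2 * z) + e ∧ s2 L e z ^ 2 = ℘[L] (2 * z) - e) := by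
  obtain ⟨m1, n1⟩ := h.mul_pi (hz.two h)
  have h1 := hz.pow h 1
  rw [pow_one] at h1
  obtain ⟨m2, n2⟩ := h.mul_pi (h1.two h)
  have hw : (1 + I) * ((1 + I) * z) = I * (2 * z) := by linear_combination z * I_sq
  rw [hw, wp_I h.lat] at m2
  have heq := h.eqn hz.nm
  unfold s0 s1 s2
  set p := ℘[L] z
  set y := ℘'[L] z
  set u := ℘[L] ((1 + I) * z)
  set x := ℘[L] (2 * z)
  have hy : y ^ 2 = 8 * I * p ^ 2 * u := by
    rw [heq]
    linear_combination (-4 * p) * m1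
  have hy0 : y ^ 2 ≠ 0 := by
    rw [hy]
    exact mul_ne_zero (mul_ne_zero (mul_ne_zero (by norm_num) I_ne_zero) (pow_ne_zero 2 n1)) n2
  have key : (p ^ 2 + 1) ^ 2 = x * y ^ 2 := by
    rw [hy]
    have e1 : (p ^ 2 - 1) ^ 2 = -4 * p ^ 2 * u ^ 2 := by
      rw [← m1]; linear_combination (4 * p ^ 2 * u ^ 2) * I_sq
    linear_combination e1 + (4 * p ^ 2) * m2
  have e3 : y ^ 2 = 4 * p * (p ^ 2 - 1) := by rw [heq]; ring
  refine ⟨?_, ?_⟩
  · rw [div_pow, div_eq_iff hy0, key]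
  · intro e he
    constructor
    · rw [div_pow, div_eq_iff hy0, add_mul, ← key, e3]
      linear_combination (4 * p ^ 2) * he
    · rw [div_pow, div_eq_iff hy0, sub_mul, ← key, e3]
      linear_combination (4 * p ^ 2) * he

/-- the product of the denominators -/
lemma q12 {x u u' e m : ℂ} (he : e ^ 2 = 1) (m2 : u ^ 2 - 1 = 2 * I * u * u')
    (hm : m = 2 * I * x * u) :
    (m - 2 * e * x) * (m + 2 * e * x) = -8 * x ^ 2 * (1 + I * u * u') := by
  rw [hm]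
  linear_combination (4 * x ^ 2 * u ^ 2) * I_sq - (4 * x ^ 2) * he - (4 * x ^ 2) * m2

lemma S_odd {x u u' e ε m : ℂ} (he : e ^ 2 = 1) (m2 : u ^ 2 - 1 = 2 * I * u * u')
    (hm : m = 2 * I * x * u) :
    (x + e) * (m - 2 * ε * x) * (m + 2 * e * x) ^ 2 +
      (x - e) * (m + 2 * ε * x) * (m - 2 * e * x) ^ 2 =
    32 * x ^ 3 * u * (u' * (x * u + I * e * ε) - (u + I * e * ε * x)) := by
  have e1 : (x + e) * (m - 2 * ε * x) * (m + 2 * e * x) ^ 2 +
      (x - e) * (m + 2 * ε * x) * (m - 2 * e * x) ^ 2 =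
      2 * x * ((m ^ 2 + 4 * x ^ 2) * (m - 2 * e * ε) + 4 * m * (m - 2 * e * ε * x ^ 2)) := by
    linear_combination (8 * x ^ 3 * (m - 2 * e * ε) + 8 * m ^ 2 * x) * he
  have e2 : m ^ 2 + 4 * x ^ 2 = -8 * I * x ^ 2 * u * u' := by
    rw [hm]
    linear_combination (4 * x ^ 2 * u ^ 2) * I_sq - (4 * x ^ 2) * m2
  rw [e1, e2, hm]
  linear_combination (2 * x) * (-16 * x ^ 3 * u ^ 2 * u' + 16 * x ^ 2 * u ^ 2) * I_sq

lemma S_even {x u u' e ε m : ℂ} (he : e ^ 2 = 1) (m2 : u ^ 2 - 1 = 2 * I * u * u')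
    (hm : m = 2 * I * x * u) :
    (x - e) * (m - 2 * ε * x) * (m + 2 * e * x) ^ 2 +
      (x + e) * (m + 2 * ε * x) * (m - 2 * e * x) ^ 2 =
    32 * x ^ 3 * u * (u' * (x * u - I * e * ε) + (u - I * e * ε * x)) := by
  have e1 : (x - e) * (m - 2 * ε * x) * (m + 2 * e * x) ^ 2 +
      (x + e) * (m + 2 * ε * x) * (m - 2 * e * x) ^ 2 =
      2 * x * ((m ^ 2 + 4 * x ^ 2) * (m + 2 * e * ε) - 4 * m * (m + 2 * e * ε * x ^ 2)) := by
    linear_combination (8 * x ^ 3 * (m + 2 * e * ε) - 8 * m ^ 2 * x) * he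
  have e2 : m ^ 2 + 4 * x ^ 2 = -8 * I * x ^ 2 * u * u' := by
    rw [hm]
    linear_combination (4 * x ^ 2 * u ^ 2) * I_sq - (4 * x ^ 2) * m2
  rw [e1, e2, hm]
  linear_combination (2 * x) * (-16 * x ^ 3 * u ^ 2 * u' - 16 * x ^ 2 * u ^ 2) * I_sq

lemma frac {κ A B P Q σ : ℂ} (hP : P ≠ 0) (hQ : Q ≠ 0) :
    (κ * (A / P + σ * (B / Q))) ^ 2 = κ ^ 2 * (A * Q + σ * B * P) ^ 2 / (P * Q) ^ 2 := by
  field_simp

/-- the square, `w` odd -/
lemma sq_odd {x u u' e ε κ σ a b s : ℂ} (he : e ^ 2 = 1) (hε : ε ^ 2 = -1) (hκ : κ ^ 2 = 2)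
    (hσ : σ ^ 2 = 1) (ha : a ^ 2 = x + e) (hb : b ^ 2 = x - e) (m1 : x ^ 2 - 1 = 2 * I * x * u)
    (m2 : u ^ 2 - 1 = 2 * I * u * u') (hx : x ≠ 0) (hs : s ≠ 0) (hT : 1 + I * u * u' = (1 + I) * s) :
    (κ * (a * (x - ε) / (x ^ 2 - 2 * e * x - 1) + σ * (b * (x + ε) / (x ^ 2 + 2 * e * x - 1)))) ^ 2 =
      u * ((u' * (x * u + I * e * ε) - (u + I * e * ε * x)) / (1 + I) ^ 2) * x⁻¹ * (s⁻¹ * s⁻¹) -
        σ * (a * b) * ((1 + I * x * u) / (1 + I)) * (x⁻¹ * x⁻¹) * s⁻¹ := by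
  have h1I : (1 + I : ℂ) ≠ 0 := one_I_ne
  set m : ℂ := 2 * I * x * u with hm
  have q1 : x ^ 2 - 2 * e * x - 1 = m - 2 * e * x := by linear_combination m1
  have q2 : x ^ 2 + 2 * e * x - 1 = m + 2 * e * x := by linear_combination m1
  rw [q1, q2]
  have hq := q12 (x := x) he m2 hm
  rw [hT] at hq
  have hq0 : (m - 2 * e * x) * (m + 2 * e * x) ≠ 0 := by
    rw [hq]
    exact mul_ne_zero (mul_ne_zero (by norm_num) (pow_ne_zero 2 hx)) (mul_ne_zero h1I hs)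
  have hq1 := left_ne_zero_of_mul hq0
  have hq2 := right_ne_zero_of_mul hq0
  have e1 : (x - ε) ^ 2 = m - 2 * ε * x := by linear_combination hε + m1
  have e2 : (x + ε) ^ 2 = m + 2 * ε * x := by linear_combination hε + m1
  have e3 : (x - ε) * (x + ε) = 2 * (1 + I * x * u) := by
    linear_combination m1 - hε + hm
  have hN : (a * (x - ε) * (m + 2 * e * x) + σ * (b * (x + ε)) * (m - 2 * e * x)) ^ 2 =
      32 * x ^ 3 * u * (u' * (x * u + I * e * ε) - (u + I * e * ε * x)) +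
        4 * σ * (a * b) * (1 + I * x * u) * (-8 * x ^ 2 * ((1 + I) * s)) := by
    rw [← S_odd he m2 hm, ← hq]
    calc _ = a ^ 2 * (x - ε) ^ 2 * (m + 2 * e * x) ^ 2 +
          σ ^ 2 * b ^ 2 * (x + ε) ^ 2 * (m - 2 * e * x) ^ 2 +
          2 * σ * (a * b) * ((x - ε) * (x + ε)) * ((m - 2 * e * x) * (m + 2 * e * x)) := by ring
      _ = _ := by rw [ha, hb, hσ, e1, e2, e3]; ring
  have hL : (κ * (a * (x - ε) / (m - 2 * e * x) + σ * (b * (x + ε) / (m + 2 * e * x)))) ^ 2 =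
      κ ^ 2 * (a * (x - ε) * (m + 2 * e * x) + σ * (b * (x + ε)) * (m - 2 * e * x)) ^ 2 /
        ((m - 2 * e * x) * (m + 2 * e * x)) ^ 2 := frac hq1 hq2
  rw [hL, hN, hq, hκ]
  field_simp
  ring

/-- the square, `w` even -/
lemma sq_even {x u u' e ε κ σ a b t s : ℂ} (he : e ^ 2 = 1) (hε : ε ^ 2 = -1) (hκ : κ ^ 2 = 2)
    (hσ : σ ^ 2 = 1) (ha : a ^ 2 = x + e) (hb : b ^ 2 = x - e) (ht : t ^ 2 = x)
    (m1 : x ^ 2 - 1 = 2 * I * x * u)
    (m2 : u ^ 2 - 1 = 2 * I * u * u') (hx : x ≠ 0) (hs : s ≠ 0) (hT : 1 + I * u * u' = (1 + I) * s) :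
    (κ * t * (b * (x - ε) / (x ^ 2 - 2 * e * x - 1) +
        σ * (a * (x + ε) / (x ^ 2 + 2 * e * x - 1)))) ^ 2 =
      u * ((u' * (x * u - I * e * ε) + (u - I * e * ε * x)) / (1 + I) ^ 2) * (s⁻¹ * s⁻¹) -
        σ * (a * b) * ((1 + I * x * u) / (1 + I)) * x⁻¹ * s⁻¹ := by
  have h1I : (1 + I : ℂ) ≠ 0 := one_I_ne
  set m : ℂ := 2 * I * x * u with hm
  have q1 : x ^ 2 - 2 * e * x - 1 = m - 2 * e * x := by linear_combination m1
  have q2 : x ^ 2 + 2 * e * x - 1 = m + 2 * e * x := by linear_combination m1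
  rw [q1, q2]
  have hq := q12 (x := x) he m2 hm
  rw [hT] at hq
  have hq0 : (m - 2 * e * x) * (m + 2 * e * x) ≠ 0 := by
    rw [hq]
    exact mul_ne_zero (mul_ne_zero (by norm_num) (pow_ne_zero 2 hx)) (mul_ne_zero h1I hs)
  have hq1 := left_ne_zero_of_mul hq0
  have hq2 := right_ne_zero_of_mul hq0
  have e1 : (x - ε) ^ 2 = m - 2 * ε * x := by linear_combination hε + m1
  have e2 : (x + ε) ^ 2 = m + 2 * ε * x := by linear_combination hε + m1
  have e3 : (x - ε) * (x + ε) = 2 * (1 + I * x * u) := by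
    linear_combination m1 - hε + hm
  have hN : (b * (x - ε) * (m + 2 * e * x) + σ * (a * (x + ε)) * (m - 2 * e * x)) ^ 2 =
      32 * x ^ 3 * u * (u' * (x * u - I * e * ε) + (u - I * e * ε * x)) +
        4 * σ * (a * b) * (1 + I * x * u) * (-8 * x ^ 2 * ((1 + I) * s)) := by
    rw [← S_even he m2 hm, ← hq]
    calc _ = b ^ 2 * (x - ε) ^ 2 * (m + 2 * e * x) ^ 2 +
          σ ^ 2 * a ^ 2 * (x + ε) ^ 2 * (m - 2 * e * x) ^ 2 +
          2 * σ * (a * b) * ((x - ε) * (x + ε)) * ((m - 2 * e * x) * (m + 2 * e * x)) := by ring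
      _ = _ := by rw [ha, hb, hσ, e1, e2, e3]; ring
  have hL : (κ * t * (b * (x - ε) / (m - 2 * e * x) + σ * (a * (x + ε) / (m + 2 * e * x)))) ^ 2 =
      κ ^ 2 * t ^ 2 * (b * (x - ε) * (m + 2 * e * x) + σ * (a * (x + ε)) * (m - 2 * e * x)) ^ 2 /
        ((m - 2 * e * x) * (m + 2 * e * x)) ^ 2 := by
    rw [frac hq1 hq2, mul_pow]
  rw [hL, hN, hq, hκ, ht]
  field_simp
  ring

section val

variable {Γ : Type*} [LinearOrderedCommGroupWithZero Γ] {v : Valuation ℂ Γ} (h2 : v 2 < 1)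

include h2 in
lemma cg_pi : Cg v (1 + I) 0 := Cg.zero (v_pi_lt h2)

include h2 in
lemma cg_pi' : Cg v (1 - I) 0 := by
  apply Cg.zero
  have e : (1 - I : ℂ) = -(I * (1 + I)) := by linear_combination I_sq
  rw [e, Valuation.map_neg, map_mul, v_I, one_mul]
  exact v_pi_lt h2

include h2 in
lemma cg_three {x : ℂ} (hx : Cg v x 3) : Cg v x 1 := by
  refine hx.trans ⟨hx.r, by rw [map_one], ?_⟩
  have e : (3 - 1 : ℂ) = 2 := by norm_num
  rw [e]
  exact h2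

include h2 in
/-- the sums `H`, `H'` -/
lemma cg_H {x u u' δ x₁ u₁ w₁ : ℂ} (hx : x = 1 + (1 + I) * x₁) (hu : u = 1 + (1 + I) * u₁)
    (hw : u' = 1 + (1 + I) * w₁) (cx : Cg v x₁ 1) (cu : Cg v u₁ 1) (cw : Cg v w₁ 1)
    (hδ : δ = 1 ∨ δ = -1) :
    Cg v ((u' * (x * u + δ) - (u + δ * x)) / (1 + I) ^ 2) 1 ∧
    Cg v ((u' * (x * u - δ) + (u - δ * x)) / (1 + I) ^ 2) 1 := by
  have h1I : (1 + I : ℂ) ≠ 0 := one_I_ne
  have cp := cg_pi (v := v) h2
  have cp' := cg_pi' (v := v) h2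
  have r2 : (2 : ℂ) = (1 + I) * (1 - I) := by linear_combination I_sq
  -- the four expressions
  have c1 : Cg v (x₁ * u₁ + w₁ * ((1 - I) + x₁ + u₁ + (1 + I) * (x₁ * u₁))) 1 := by
    apply cg_three h2
    have := (cx.mul cu).add (cw.mul (((cp'.add cx).add cu).add (cp.mul (cx.mul cu))))
    norm_num at this
    exact this
  have c2 : Cg v ((1 - I) * x₁ + x₁ * u₁ + w₁ * (x₁ + u₁ + (1 + I) * (x₁ * u₁))) 1 := by
    apply cg_three h2
    have := ((cp'.mul cx).add (cx.mul cu)).add (cw.mul ((cx.add cu).add (cp.mul (cx.mul cu))))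
    norm_num at this
    exact this
  have c3 : Cg v ((1 - I) * u₁ + x₁ * u₁ + w₁ * (x₁ + u₁ + (1 + I) * (x₁ * u₁))) 1 := by
    apply cg_three h2
    have := ((cp'.mul cu).add (cx.mul cu)).add (cw.mul ((cx.add cu).add (cp.mul (cx.mul cu))))
    norm_num at this
    exact this
  have c4 : Cg v (((1 - I) + x₁) * ((1 - I) + u₁) +
      w₁ * ((1 - I) + x₁ + u₁ + (1 + I) * (x₁ * u₁))) 1 := by
    apply cg_three h2
    have := ((cp'.add cx).mul (cp'.add cu)).add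
      (cw.mul (((cp'.add cx).add cu).add (cp.mul (cx.mul cu))))
    norm_num at this
    exact this
  rcases hδ with rfl | rfl
  · constructor
    · rw [show (u' * (x * u + 1) - (u + 1 * x)) / (1 + I) ^ 2 =
        x₁ * u₁ + w₁ * ((1 - I) + x₁ + u₁ + (1 + I) * (x₁ * u₁)) from by
          rw [div_eq_iff (pow_ne_zero 2 h1I), hx, hu, hw]
          linear_combination ((1 + I) * w₁) * r2]
      exact c1
    · rw [show (u' * (x * u - 1) + (u - 1 * x)) / (1 + I) ^ 2 =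
        (1 - I) * u₁ + x₁ * u₁ + w₁ * (x₁ + u₁ + (1 + I) * (x₁ * u₁)) from by
          rw [div_eq_iff (pow_ne_zero 2 h1I), hx, hu, hw]
          linear_combination ((1 + I) * u₁) * r2]
      exact c3
  · constructor
    · rw [show (u' * (x * u + -1) - (u + -1 * x)) / (1 + I) ^ 2 =
        (1 - I) * x₁ + x₁ * u₁ + w₁ * (x₁ + u₁ + (1 + I) * (x₁ * u₁)) from by
          rw [div_eq_iff (pow_ne_zero 2 h1I), hx, hu, hw]
          linear_combination ((1 + I) * x₁) * r2]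
      exact c2
    · rw [show (u' * (x * u - -1) + (u - -1 * x)) / (1 + I) ^ 2 =
        ((1 - I) + x₁) * ((1 - I) + u₁) +
      w₁ * ((1 - I) + x₁ + u₁ + (1 + I) * (x₁ * u₁)) from by
          rw [div_eq_iff (pow_ne_zero 2 h1I), hx, hu, hw]
          linear_combination ((1 + I) * w₁ + (1 + I) * (x₁ + u₁) + (2 + (1 + I) * (1 - I))) * r2]
      exact c4

include h2 in
/-- the cross term -/
lemma cg_cross {x u σ c g t s : ℂ} (hσ : σ ^ 2 = 1) (hc : c ^ 2 = 2 * I * x * u) (vx : v x = 1)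
    (vu : v u = 1) (vg : v g ≤ 1) (vt : v t = 1) (vs : v s = 1) :
    Cg v (σ * c * g * t⁻¹ * s⁻¹) 0 := by
  apply Cg.zero
  have h1 : v ((σ * c * g * t⁻¹ * s⁻¹) ^ 2) < 1 := by
    have e : (σ * c * g * t⁻¹ * s⁻¹) ^ 2 = 2 * (I * x * u) * g ^ 2 * (t⁻¹) ^ 2 * (s⁻¹) ^ 2 := by
      calc _ = σ ^ 2 * c ^ 2 * g ^ 2 * (t⁻¹) ^ 2 * (s⁻¹) ^ 2 := by ring
        _ = _ := by rw [hσ, hc]; ring
    rw [e]
    simp only [map_mul, map_pow, map_inv₀, vt, vs, vx, vu, v_I, inv_one, one_pow, mul_one]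
    exact lt_of_le_of_lt (mul_le_of_le_one_right' (pow_le_one₀ zero_le vg)) h2
  rw [map_pow] at h1
  by_contra hc'
  push Not at hc'
  exact absurd h1 (not_lt.2 (one_le_pow₀ hc'))

end val

theorem t_UNX : S_UNX := by
  intro L Ω h Γ _ v h2 z hz κ ε hκ hε w
  have h1I : (1 + I : ℂ) ≠ 0 := one_I_ne
  have hZ := OT2 h hz
  obtain ⟨m1, n1⟩ := h.mul_pi (hZ.two h)
  have hZ1 := hZ.pow h 1
  rw [pow_one] at hZ1
  have hZ2 := hZ1.pow h 1
  rw [pow_one] at hZ2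
  obtain ⟨m2, n2⟩ := h.mul_pi (hZ1.two h)
  have cx := cg_wp h2 h hZ
  have cu := cg_wp h2 h hZ1
  have cx1 := cg_wp1 h2 h hZ
  have cu1 := cg_wp1 h2 h hZ1
  have cw1 := cg_wp1 h2 h hZ2
  have cs := cg_s h2 h hZ
  have he := h.e1_sq
  obtain ⟨hs0, hs12⟩ := s_sq h hz
  obtain ⟨hs1, hs2⟩ := hs12 _ he
  have hs04 : s0 L z ^ 4 = ℘[L] (2 * z) ^ 2 := by rw [← hs0]; ring
  unfold gX
  rw [hs0, hs04]
  set e := ℘[L] (Ω / 2)
  set x := ℘[L] (2 * z)
  set u := ℘[L] ((1 + I) * (2 * z))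
  set u' := ℘[L] ((1 + I) * ((1 + I) * (2 * z)))
  set a := s1 L e z
  set b := s2 L e z
  set s := (1 + I * u * u') / (1 + I) with hsd
  have hse : 1 + I * u * u' = (1 + I) * s := by
    rw [hsd]
    field_simp
  have hs0' := cg_ne cs
  have hσ : sgw w ^ 2 = 1 := by unfold sgw; split_ifs <;> norm_num
  have hab : (a * b) ^ 2 = 2 * I * x * u := by
    rw [mul_pow, hs1, hs2]
    linear_combination -m1 - he
  have hδ : I * e * ε = 1 ∨ I * e * ε = -1 := by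
    have h1 : (I * e * ε - 1) * (I * e * ε + 1) = 0 := by
      have e1 : (I * e * ε) ^ 2 = 1 := by
        rw [mul_pow, mul_pow, he, hε, I_sq]; ring
      linear_combination e1
    rcases mul_eq_zero.1 h1 with h3 | h3
    · left; linear_combination h3
    · right; linear_combination h3
  have hxe : x = 1 + (1 + I) * ((x - 1) / (1 + I)) := by field_simp; ring
  have hue : u = 1 + (1 + I) * ((u - 1) / (1 + I)) := by field_simp; ring
  have hwe : u' = 1 + (1 + I) * ((u' - 1) / (1 + I)) := by field_simp; ring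
  obtain ⟨cH, cH'⟩ := cg_H h2 hxe hue hwe cx1 cu1 cw1 hδ
  have vx := cg_v cx
  have vu := cg_v cu
  have vs := cg_v cs
  have vg : v ((1 + I * x * u) / (1 + I)) ≤ 1 := by
    have e1 : (1 + I * x * u) / (1 + I) = 1 + I * (x * ((u - 1) / (1 + I)) + (x - 1) / (1 + I)) := by
      field_simp
      ring
    rw [e1]
    have := (Cg.refl (v := v) (x := 1) (by rw [map_one])).add
      ((cg_I h2).mul ((cx.mul cu1).add cx1))
    exact this.l
  have hsi := cg_inv cs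
  by_cases hw : w % 2 = 1
  · rw [if_pos hw]
    apply cg_sqrt h2
    rw [sq_odd he hε hκ hσ hs1 hs2 m1.symm m2.symm n1 hs0' hse]
    have c1 := ((cu.mul cH).mul (cg_inv cx)).mul (hsi.mul hsi)
    have c2 := cg_cross (s := s) (t := x * x) h2 hσ hab vx vu vg (by rw [map_mul, vx, one_mul]) vs
    rw [mul_inv] at c2
    have := c1.sub c2
    norm_num at this
    exact this
  · rw [if_neg hw]
    apply cg_sqrt h2
    rw [sq_even he hε hκ hσ hs1 hs2 hs0 m1.symm m2.symm n1 hs0' hse]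
    have c1 := (cu.mul cH').mul (hsi.mul hsi)
    have c2 := cg_cross (s := s) (t := x) h2 hσ hab vx vu vg vx vs
    have := c1.sub c2
    norm_num at this
    exact this

end Pool.Agent.L7h89.QX
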